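import Pool.Agent.W350.Edge6

/-!
# Boundary values of the partial L-functions `L_S(s, π, ρ)` of `GSp(2n)` for all `ρ` simultaneously

Library for `MP_eea520_nt`.
-/

set_option autoImplicit false

namespace Pool.Agent.Y769.Bdry

open Filter Topology Polynomial Pool.Agent.W350.Edge

/-- The value of the weight `μ` at the diagonal element with coordinates `x`. -/
noncomputable def weight {n : ℕ} (x : Fin (n + 1) → ℂ) (μ : Fin (n + 1) → ℤ) : ℂ :=
  ∏ i, x i ^ μ i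

/-- The Euler factor `det(1 - ρ(A_p) p^{-s})⁻¹`. -/
noncomputable def eulerFactor {n : ℕ} (x : Fin (n + 1) → ℂ) (ρ : Multiset (Fin (n + 1) → ℤ))
    (p : ℕ) (s : ℂ) : ℂ :=
  ((ρ.map fun μ => 1 - weight x μ * (p : ℂ) ^ (-s)).prod)⁻¹

/-- The factor at `p` of `L_S(s, π, ρ)`. -/
noncomputable def factor {n : ℕ} (S : Finset ℕ) (A : ℕ → Fin (n + 1) → ℂ)
    (ρ : Multiset (Fin (n + 1) → ℤ)) (s : ℂ) (p : ℕ) : ℂ :=
  if p ∈ S then 1 else eulerFactor (A p) ρ p s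

/-- The power sums. -/
noncomputable def pw {n : ℕ} (A : ℕ → Fin (n + 1) → ℂ) (ρ : Multiset (Fin (n + 1) → ℤ))
    (p m : ℕ) : ℂ := (ρ.map fun μ => weight (A p) μ ^ m).sum

/-- The bound for the weights. -/
def Bdd {n : ℕ} (S : Finset ℕ) (A : ℕ → Fin (n + 1) → ℂ) (ρ : Multiset (Fin (n + 1) → ℤ))
    (θ : ℝ) : Prop :=
  ∀ p : ℕ, p.Prime → p ∉ S → ∀ μ ∈ ρ, ‖weight (A p) μ‖ ≤ (p : ℝ) ^ θ

variable {n : ℕ} {S : Finset ℕ} {A : ℕ → Fin (n + 1) → ℂ} {ρ : Multiset (Fin (n + 1) → ℤ)}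
  {θ : ℝ}

lemma norm_pw_le (h : Bdd S A ρ θ) {p : ℕ} (hp : p.Prime) (hS : p ∉ S) (m : ℕ) :
    ‖pw A ρ p m‖ ≤ Multiset.card ρ * ((p : ℝ) ^ θ) ^ m := by
  unfold pw
  refine (norm_multiset_sum_le _).trans ?_
  rw [Multiset.map_map]
  have h2 : (Multiset.map (norm ∘ fun μ => weight (A p) μ ^ m) ρ).sum ≤
      Multiset.card (Multiset.map (norm ∘ fun μ => weight (A p) μ ^ m) ρ) •
        ((p : ℝ) ^ θ) ^ m := by
    refine Multiset.sum_le_card_nsmul _ _ fun x hx => ?_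
    obtain ⟨μ, hμ, rfl⟩ := Multiset.mem_map.1 hx
    simp only [Function.comp_apply, norm_pow]
    exact pow_le_pow_left₀ (norm_nonneg _) (h p hp hS μ hμ) m
  rw [Multiset.card_map, nsmul_eq_mul] at h2
  exact h2

lemma wb (h : Bdd S A ρ θ) : WB (pw A ρ) (2 * θ) S (Multiset.card ρ) := by
  intro p hp hS m
  have h1 := norm_pw_le h hp hS (m + 1)
  rwa [show (2 * θ / 2 : ℝ) = θ by ring]

lemma log_one {z : ℂ} (hz : ‖z‖ < 1) :
    Complex.exp (∑' m : ℕ, z ^ (m + 1) / (m + 1 : ℂ)) = (1 - z)⁻¹ := by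
  have h1 := Complex.hasSum_taylorSeries_neg_log hz
  have h2 : HasSum (fun m : ℕ => z ^ (m + 1) / ((m + 1 : ℕ) : ℂ)) (-Complex.log (1 - z)) := by
    have h3 := (hasSum_nat_add_iff' (f := fun m : ℕ => z ^ m / (m : ℂ)) 1).2 h1
    simpa using h3
  have h3 : ∑' m : ℕ, z ^ (m + 1) / (m + 1 : ℂ) = -Complex.log (1 - z) := by
    rw [← h2.tsum_eq]
    refine tsum_congr fun m => ?_
    push_cast
    rfl
  have h4 : (1 - z) ≠ 0 := by
    intro h5
    have : z = 1 := by linear_combination -h5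
    rw [this] at hz
    simp at hz
  rw [h3, Complex.exp_neg, Complex.exp_log h4]

lemma summable_log {z : ℂ} (hz : ‖z‖ < 1) : Summable fun m : ℕ => z ^ (m + 1) / (m + 1 : ℂ) := by
  have h1 := Complex.hasSum_taylorSeries_neg_log hz
  have h2 := ((hasSum_nat_add_iff' (f := fun m : ℕ => z ^ m / (m : ℂ)) 1).2 h1).summable
  refine h2.congr fun m => ?_
  push_cast
  rfl

/-- The Euler factor is the exponential of the sum over the powers. -/
lemma exp_logF (p : ℕ) (s : ℂ) (h : ∀ μ ∈ ρ, ‖weight (A p) μ * (p : ℂ) ^ (-s)‖ < 1)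
    (hp : p ≠ 0) :
    Complex.exp (logF (pw A ρ) p s) = eulerFactor (A p) ρ p s := by
  have hp0 : (p : ℂ) ≠ 0 := by exact_mod_cast hp
  unfold logF eulerFactor pw
  have key : ∀ ρ' : Multiset (Fin (n + 1) → ℤ),
      (∀ μ ∈ ρ', ‖weight (A p) μ * (p : ℂ) ^ (-s)‖ < 1) →
      HasSum (fun m : ℕ => (ρ'.map fun μ => weight (A p) μ ^ (m + 1)).sum *
        (p : ℂ) ^ (-((m + 1 : ℂ) * s)) / (m + 1 : ℂ))
        ((ρ'.map fun μ => ∑' m : ℕ, (weight (A p) μ * (p : ℂ) ^ (-s)) ^ (m + 1) /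
          (m + 1 : ℂ)).sum) := by
    intro ρ'
    induction ρ' using Multiset.induction with
    | empty =>
      intro _
      simp only [Multiset.map_zero, Multiset.sum_zero, zero_mul, zero_div]
      exact hasSum_zero
    | cons μ ρ'' ih =>
      intro h
      have h1 := ih fun ν hν => h ν (Multiset.mem_cons_of_mem hν)
      have h2 := (summable_log (h μ (Multiset.mem_cons_self _ _))).hasSum
      simp only [Multiset.map_cons, Multiset.sum_cons]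
      refine (h2.add h1).congr_fun ?_
      intro m
      have h3 : (p : ℂ) ^ (-((m + 1 : ℂ) * s)) = ((p : ℂ) ^ (-s)) ^ (m + 1) := by
        rw [← Complex.cpow_nat_mul]
        congr 1
        push_cast
        ring
      rw [h3, mul_pow]
      ring
  rw [(key ρ h).tsum_eq]
  have key2 : ∀ ρ' : Multiset (Fin (n + 1) → ℤ),
      (∀ μ ∈ ρ', ‖weight (A p) μ * (p : ℂ) ^ (-s)‖ < 1) →
      Complex.exp ((ρ'.map fun μ => ∑' m : ℕ, (weight (A p) μ * (p : ℂ) ^ (-s)) ^ (m + 1) /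
          (m + 1 : ℂ)).sum) = ((ρ'.map fun μ => 1 - weight (A p) μ * (p : ℂ) ^ (-s)).prod)⁻¹ := by
    intro ρ'
    induction ρ' using Multiset.induction with
    | empty =>
      intro _
      simp
    | cons μ ρ'' ih =>
      intro h
      rw [Multiset.map_cons, Multiset.sum_cons, Complex.exp_add, Multiset.map_cons,
        Multiset.prod_cons, mul_inv, ih fun ν hν => h ν (Multiset.mem_cons_of_mem hν),
        log_one (h μ (Multiset.mem_cons_self _ _))]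
  exact key2 ρ h

lemma small (h : Bdd S A ρ θ) {p : ℕ} (hp : p.Prime) (hS : p ∉ S) {s : ℂ} (hs : 1 + θ ≤ s.re)
    (μ : Fin (n + 1) → ℤ) (hμ : μ ∈ ρ) : ‖weight (A p) μ * (p : ℂ) ^ (-s)‖ < 1 := by
  have hp0 : (0 : ℝ) < p := by exact_mod_cast hp.pos
  have hp1 : (1 : ℝ) < p := by exact_mod_cast hp.one_lt
  rw [norm_mul, Complex.norm_natCast_cpow_of_pos hp.pos, Complex.neg_re]
  calc ‖weight (A p) μ‖ * (p : ℝ) ^ (-s.re) ≤ (p : ℝ) ^ θ * (p : ℝ) ^ (-s.re) :=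
        mul_le_mul_of_nonneg_right (h p hp hS μ hμ) (by positivity)
    _ = (p : ℝ) ^ (θ - s.re) := by rw [← Real.rpow_add hp0]; rfl
    _ ≤ (p : ℝ) ^ (-1 : ℝ) := Real.rpow_le_rpow_of_exponent_le hp1.le (by linarith)
    _ < 1 := Real.rpow_lt_one_of_one_lt_of_neg hp1 (by norm_num)

lemma fac_eq_factor (h : Bdd S A ρ θ) {p : ℕ} (hp : p.Prime) {s : ℂ} (hs : 1 + θ ≤ s.re) :
    fac (pw A ρ) S (fun _ => 1) s p = factor S A ρ s p := by
  unfold fac factor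
  split_ifs with hS
  · simp
  · exact exp_logF p s (fun μ hμ => small h hp hS hs μ hμ) hp.ne_zero

/-- The point `1 + θ + iτ`. -/
noncomputable def pt (θ τ : ℝ) : ℂ := ((1 + θ : ℝ) : ℂ) + (τ : ℂ) * Complex.I

lemma pt_eq (θ τ : ℝ) : sp (2 * θ) τ = pt θ τ := by
  unfold sp pt
  congr 2
  ring

lemma pt_re (θ τ : ℝ) : (pt θ τ).re = 1 + θ := by simp [pt]

/-- What is claimed at one boundary point. -/
def HasBoundaryValue (S : Finset ℕ) (A : ℕ → Fin (n + 1) → ℂ) (ρ : Multiset (Fin (n + 1) → ℤ))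
    (θ τ : ℝ) : Prop :=
  ∃ l : ℂ, l ≠ 0 ∧
    Tendsto (fun x : ℕ => ∏ p ∈ Nat.primesBelow x, factor S A ρ (pt θ τ) p) atTop (𝓝 l) ∧
    ∀ K : ℝ, Tendsto (fun s : ℂ => ∏' p : Nat.Primes, factor S A ρ s p)
      (𝓝[{s : ℂ | 1 + θ < s.re ∧ ‖s - pt θ τ‖ ≤ K * (s.re - (1 + θ))}] (pt θ τ)) (𝓝 l)

lemma hasBoundaryValue_of (h : Bdd S A ρ θ) (τ : ℝ) (B : ℂ)
    (hB : Tendsto (ps (aa (pw A ρ) (2 * θ) S) τ) atTop (𝓝 B)) : HasBoundaryValue S A ρ θ τ := by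
  obtain ⟨l, h1, h2, h3⟩ := at_point (wb h) (fun _ => 1) τ (fun p _ _ => by simp) B hB
  rw [pt_eq] at h2
  refine ⟨l, h1, h2.congr fun x => ?_, fun K => ?_⟩
  · refine Finset.prod_congr rfl fun p hp => ?_
    exact fac_eq_factor h (Nat.prime_of_mem_primesBelow hp) (pt_re θ τ).ge
  · have h4 := h3 K
    rw [pt_eq] at h4
    have e : (2 * θ / 2 + 1 : ℝ) = 1 + θ := by ring
    rw [e] at h4
    refine h4.congr' ?_
    filter_upwards [self_mem_nhdsWithin] with s hs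
    refine tprod_congr fun p => ?_
    exact fac_eq_factor h p.2 hs.1.le

/-- The least exponent. -/
lemma exists_least (h : ∃ θ, Bdd S A ρ θ)
    (hρ : ∃ μ ∈ ρ, ∃ p : ℕ, p.Prime ∧ p ∉ S ∧ weight (A p) μ ≠ 0) :
    ∃ θ₀, Bdd S A ρ θ₀ ∧ ∀ θ, Bdd S A ρ θ → θ₀ ≤ θ := by
  obtain ⟨μ, hμ, p, hp, hpS, hne⟩ := hρ
  have hp0 : (0 : ℝ) < p := by exact_mod_cast hp.pos
  have hp1 : (1 : ℝ) < p := by exact_mod_cast hp.one_lt
  set Θ : Set ℝ := {θ | Bdd S A ρ θ} with hΘ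
  have hbelow : BddBelow Θ := by
    refine ⟨Real.logb p ‖weight (A p) μ‖, fun θ hθ => ?_⟩
    have h1 := hθ p hp hpS μ hμ
    exact (Real.logb_le_iff_le_rpow hp1 (norm_pos_iff.2 hne)).2 h1
  refine ⟨sInf Θ, ?_, fun θ hθ => csInf_le hbelow hθ⟩
  intro q hq hqS ν hν
  have hq0 : (0 : ℝ) < q := by exact_mod_cast hq.pos
  have hq1 : (1 : ℝ) < q := by exact_mod_cast hq.one_lt
  by_cases h0 : weight (A q) ν = 0
  · rw [h0, norm_zero]
    positivity
  · rw [← Real.logb_le_iff_le_rpow hq1 (norm_pos_iff.2 h0)]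
    refine le_csInf h fun θ hθ => ?_
    exact (Real.logb_le_iff_le_rpow hq1 (norm_pos_iff.2 h0)).2 (hθ q hq hqS ν hν)

lemma ps_tendsto_of_lt {θ₀ : ℝ} (h₀ : Bdd S A ρ θ₀) (hlt : θ₀ < θ) (τ : ℝ) :
    ∃ B, Tendsto (ps (aa (pw A ρ) (2 * θ) S) τ) atTop (𝓝 B) := by
  have hs : Summable fun p : ℕ => term (aa (pw A ρ) (2 * θ) S) τ p := by
    have h1 : Summable fun q : ℕ => (Multiset.card ρ : ℝ) * (1 / (q : ℝ) ^ (1 + (θ - θ₀))) :=
      (Real.summable_one_div_nat_rpow.2 (by linarith)).mul_left _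
    refine Summable.of_norm_bounded h1 fun q => ?_
    unfold term aa
    split_ifs with hq hqS
    · have hq0 : (0 : ℝ) < q := by exact_mod_cast hq.pos
      have h3 : ‖Complex.exp (-((τ : ℂ) * (Real.log q : ℂ)) * Complex.I)‖ = 1 := by
        rw [Complex.norm_exp, Complex.mul_I_re, ← Complex.ofReal_mul, ← Complex.ofReal_neg,
          Complex.ofReal_im, neg_zero, Real.exp_zero]
      rw [norm_mul, h3, mul_one, norm_div, Complex.norm_natCast, norm_mul, Complex.norm_real,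
        Real.norm_of_nonneg (by positivity)]
      have h4 := norm_pw_le h₀ hq hqS.2 1
      rw [pow_one] at h4
      calc ‖pw A ρ q 1‖ * (q : ℝ) ^ (-(2 * θ / 2)) / q
          ≤ (Multiset.card ρ * (q : ℝ) ^ θ₀) * (q : ℝ) ^ (-(2 * θ / 2)) / q := by gcongr
        _ = (Multiset.card ρ : ℝ) * (1 / (q : ℝ) ^ (1 + (θ - θ₀))) := by
          rw [one_div, ← Real.rpow_neg hq0.le, div_eq_mul_inv, ← Real.rpow_neg_one, mul_assoc,
            mul_assoc, ← Real.rpow_add hq0, ← Real.rpow_add hq0]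
          congr 2
          ring
    · simp only [zero_div, zero_mul, norm_zero]
      positivity
    · rw [norm_zero]
      positivity
  exact ⟨_, hs.hasSum.tendsto_sum_nat⟩

/-- One exceptional set for one `ρ` and all exponents. -/
theorem one (S : Finset ℕ) (A : ℕ → Fin (n + 1) → ℂ)
    (hA : ∀ p : ℕ, p.Prime → p ∉ S → ∀ i, A p i ≠ 0) (ρ : Multiset (Fin (n + 1) → ℤ)) :
    ∃ T : Set ℝ, dimH T = 0 ∧ ∀ θ, Bdd S A ρ θ → ∀ τ, τ ∉ T → HasBoundaryValue S A ρ θ τ := by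
  classical
  by_cases h : ∃ θ, Bdd S A ρ θ
  swap
  · exact ⟨∅, dimH_empty, fun θ hθ => absurd ⟨θ, hθ⟩ h⟩
  obtain ⟨p, hp1, hp2⟩ := Nat.exists_infinite_primes (S.sup id + 1)
  have hpS : p ∉ S := by
    intro h
    have : p ≤ S.sup id := Finset.le_sup (f := id) h
    omega
  rcases Multiset.empty_or_exists_mem ρ with hρ | ⟨μ, hμ⟩
  · refine ⟨∅, dimH_empty, fun θ hθ τ _ => ?_⟩
    refine hasBoundaryValue_of hθ τ 0 ?_
    have : ps (aa (pw A ρ) (2 * θ) S) τ = fun _ => 0 := by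
      funext x
      unfold ps term aa pw
      subst hρ
      simp
    rw [this]
    exact tendsto_const_nhds
  · have hne : weight (A p) μ ≠ 0 := by
      unfold weight
      exact Finset.prod_ne_zero_iff.2 fun i _ => zpow_ne_zero _ (hA p hp2 hpS i)
    obtain ⟨θ₀, h1, h2⟩ := exists_least h ⟨μ, hμ, p, hp2, hpS, hne⟩
    refine ⟨divSet (aa (pw A ρ) (2 * θ₀) S), dimH_divSet _ _ (norm_aa (wb h1)),
      fun θ hθ τ hτ => ?_⟩
    rcases eq_or_lt_of_le (h2 θ hθ) with h3 | h3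
    · subst h3
      obtain ⟨B, hB⟩ : ∃ B, Tendsto (ps (aa (pw A ρ) (2 * θ₀) S) τ) atTop (𝓝 B) := by
        by_contra h
        exact hτ h
      exact hasBoundaryValue_of hθ τ B hB
    · obtain ⟨B, hB⟩ := ps_tendsto_of_lt h1 h3 τ
      exact hasBoundaryValue_of hθ τ B hB

/-- One exceptional set for countably many systems, all `ρ` and all exponents. -/
theorem all {ι : Type*} [Countable ι] (n : ι → ℕ) (S : ι → Finset ℕ)
    (A : ∀ j, ℕ → Fin (n j + 1) → ℂ)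
    (hA : ∀ j, ∀ p : ℕ, p.Prime → p ∉ S j → ∀ i, A j p i ≠ 0) :
    ∃ T : Set ℝ, dimH T = 0 ∧ ∀ j (ρ : Multiset (Fin (n j + 1) → ℤ)) (θ : ℝ),
      Bdd (S j) (A j) ρ θ → ∀ τ, τ ∉ T → HasBoundaryValue (S j) (A j) ρ θ τ := by
  choose T h1 h2 using fun j : ι => fun ρ => one (S j) (A j) (hA j) ρ
  refine ⟨⋃ j, ⋃ ρ, T j ρ, ?_, fun j ρ θ hθ τ hτ => ?_⟩
  · rw [dimH_iUnion]
    simp only [dimH_iUnion, h1]
    simp
  · refine h2 j ρ θ hθ τ fun h => hτ ?_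
    exact Set.mem_iUnion.2 ⟨j, Set.mem_iUnion.2 ⟨ρ, h⟩⟩

end Pool.Agent.Y769.Bdry
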